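import Pool.Agent.H11.Quart
import Pool.Agent.H25.CBase

set_option autoImplicit false

namespace Pool.Agent.Results.MP_7a9dcc_lc.NPHard
open Finset Pool.Agent.H11.PT Pool.Agent.H25.CB

section
variable {V : Type} (G : SimpleGraph V)

/-- a broadcast: `f v ≤ e(v)` for every vertex -/
def Broadcast (f : V → ℕ) : Prop := ∀ v, (f v : ℕ∞) ≤ G.eccent v

/-- `u` hears `f` from some vertex -/
def Hears (f : V → ℕ) (u : V) : Prop := ∃ v, 0 < f v ∧ G.edist u v ≤ f v

/-- minimal dominating broadcast -/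
def MinDom (f : V → ℕ) : Prop := Broadcast G f ∧ (∀ u, Hears G f u) ∧
  ∀ g, Broadcast G g → (∀ v, g v ≤ f v) → g ≠ f → ¬ ∀ u, Hears G g u

/-- irredundant broadcast: every broadcasting vertex has a nonempty private boundary -/
def Irred [DecidableEq V] (f : V → ℕ) : Prop := Broadcast G f ∧
  ∀ v, 0 < f v → ∃ u, G.edist u v ≤ f v ∧ ¬ Hears G (Function.update f v (f v - 1)) u

end

/-- an instance: number of vertices, edge list, threshold `k` -/
abbrev Inst := ℕ × List (ℕ × ℕ) × ℕ

/-- the graph is connected and has at least two vertices -/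
def Valid (y : Inst) : Prop := 2 ≤ y.1 ∧ (gr y.1 y.2.1).Connected

/-- `Γ_b(G) ≥ k` -/
def UpperDom (y : Inst) : Prop := ∃ f, MinDom (gr y.1 y.2.1) f ∧ y.2.2 ≤ ∑ v, f v

/-- `IR_b(G) ≥ k` -/
def UpperIrr (y : Inst) : Prop := ∃ f, Irred (gr y.1 y.2.1) f ∧ y.2.2 ≤ ∑ v, f v

theorem MinDom.irred {V : Type} [DecidableEq V] {G : SimpleGraph V} {f : V → ℕ} (h : MinDom G f) :
    Irred G f := by
  refine ⟨h.1, fun v hv => ?_⟩
  have l : ∀ w, Function.update f v (f v - 1) w ≤ f w := fun w => by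
    rw [Function.update_apply]; split_ifs with e
    · rw [e]; omega
    · rfl
  obtain ⟨u, hu⟩ := not_forall.1 (h.2.2 _ (fun w => le_trans (by exact_mod_cast l w) (h.1 w)) l
    fun e => by have := congrFun e v; rw [Function.update_self] at this; omega)
  obtain ⟨w, w1, w2⟩ := h.2.1 u
  by_cases e : w = v
  · exact ⟨u, e ▸ w2, hu⟩
  · exact absurd ⟨w, by rw [Function.update_of_ne e]; exact ⟨w1, w2⟩⟩ hu

theorem of_indep {V : Type} [Fintype V] [DecidableEq V] [Nontrivial V] (G : SimpleGraph V)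
    (S : Finset V) (hS : ∀ x ∈ S, ∀ y ∈ S, ¬ G.Adj x y) : ∃ f, MinDom G f ∧ S.card ≤ ∑ v, f v := by
  obtain ⟨T, h1, h2⟩ := Finite.exists_le_maximal (p := fun S : Finset V => ∀ x ∈ S, ∀ y ∈ S, ¬ G.Adj x y) hS
  refine ⟨fun v => if v ∈ T then 1 else 0, ⟨fun v => ?_, fun u => ?_, fun g _ g1 g2 g3 => g2 (funext fun v => ?_)⟩,
    by simpa using card_le_card h1⟩
  · dsimp only
    split_ifs
    · exact Order.one_le_iff_pos.2 (pos_iff_ne_zero.2 (SimpleGraph.eccent_ne_zero v))
    · simp
  · by_contra k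
    have k' : ∀ w ∈ T, ¬ (G.Adj u w ∨ u = w) := fun w hw a =>
      k ⟨w, by simp [hw], by simpa [hw, SimpleGraph.edist_le_one_iff_adj_or_eq] using a⟩
    refine k' u (h2.2 (y := insert u T) (fun x hx y hy a => ?_) (subset_insert _ _) (by simp)) (Or.inr rfl)
    rcases mem_insert.1 hx with rfl | hx' <;> rcases mem_insert.1 hy with rfl | hy'
    · exact a.ne rfl
    · exact k' _ hy' (Or.inl a)
    · exact k' _ hx' (Or.inl a.symm)
    · exact h2.1 _ hx' _ hy' a
  · dsimp only at g1 ⊢
    have := g1 v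
    split_ifs at this ⊢ with hv
    · obtain ⟨w, w1, w2⟩ := g3 v
      have := g1 w
      split_ifs at this with hw
      · rcases SimpleGraph.edist_le_one_iff_adj_or_eq.1 (w2.trans (by exact_mod_cast this)) with a | rfl
        · exact absurd a (h2.1 _ hv _ hw)
        · omega
      · omega
    · omega

def red (y : Inst) : Inst := ((y.1 + 1) * (y.1 + 3) + 1,
  (List.range ((y.1 + 1) * (y.1 + 3) + 1) ×ˢ List.range ((y.1 + 1) * (y.1 + 3) + 1)).filter fun p =>
    decide (p.1 = (y.1 + 1) * (y.1 + 3) ∨ (p.1 % (y.1 + 1), p.2 % (y.1 + 1)) ∈ y.2.1),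
  (y.2.2 + 1) * (y.1 + 3))

theorem correct (y : Inst) (h : ISV y) : Valid (red y) ∧ (IS y → UpperDom (red y)) ∧
    (UpperIrr (red y) → IS y) := by
  obtain ⟨n, E, k⟩ := y
  obtain ⟨N, hN⟩ : ∃ N, N = (n + 1) * (n + 3) := ⟨_, rfl⟩
  have N3 : 3 ≤ N := by rw [hN]; nlinarith
  obtain ⟨G, hG⟩ : ∃ G : SimpleGraph (Fin (N + 1)), G = gr (N + 1) ((List.range (N + 1) ×ˢ List.range (N + 1)).filter
    fun p => decide (p.1 = N ∨ (p.1 % (n + 1), p.2 % (n + 1)) ∈ E)) := ⟨_, rfl⟩
  have ad : ∀ x y, G.Adj x y ↔ x ≠ y ∧ (x = Fin.last N ∨ y = Fin.last N ∨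
      (x.val % (n + 1), y.val % (n + 1)) ∈ E ∨ (y.val % (n + 1), x.val % (n + 1)) ∈ E) := fun x y => by
    have := x.2
    have := y.2
    simp only [hG, gr, SimpleGraph.fromRel_adj, List.mem_filter, List.mem_product, List.mem_range,
      decide_eq_true_eq, Fin.ext_iff, Fin.val_last]
    tauto
  have d1 : ∀ x, G.edist x (Fin.last N) ≤ 1 := fun x =>
    SimpleGraph.edist_le_one_iff_adj_or_eq.2 (by rw [ad]; tauto)
  have d2 : ∀ x y, G.edist x y ≤ 2 := fun x y => (G.edist_triangle (v := Fin.last N)).trans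
    ((add_le_add (d1 x) (G.edist_comm ▸ d1 y)).trans (by norm_num))
  have hE := h.2
  suffices G.Connected ∧ (IS (n, E, k) → ∃ f, MinDom G f ∧ (k + 1) * (n + 3) ≤ ∑ v, f v) ∧
      ((∃ f, Irred G f ∧ (k + 1) * (n + 3) ≤ ∑ v, f v) → IS (n, E, k)) by
    subst hN hG; exact ⟨⟨Nat.succ_le_succ (by omega : 1 ≤ (n + 1) * (n + 3)), this.1⟩, this.2⟩
  simp only [IS] at hE ⊢
  refine ⟨⟨fun x y => SimpleGraph.edist_ne_top_iff_reachable.1
    (ne_top_of_le_ne_top (by simp) (d2 x y))⟩, fun ⟨I, i1, i2, i3⟩ => ?_, fun ⟨f, ⟨f1, f2⟩, f3⟩ => ?_⟩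
  · haveI : Nontrivial (Fin (N + 1)) := Fin.nontrivial_iff_two_le.2 (by omega)
    obtain ⟨f, f1, f2⟩ := of_indep G (univ.filter fun x => x ≠ Fin.last N ∧ x.val % (n + 1) ∈ insert n I)
      fun x hx y hy a => by
        simp only [mem_filter, mem_univ, true_and, mem_insert] at hx hy
        rcases (ad x y).1 a with ⟨_, e | e | e | e⟩
        · exact hx.1 e
        · exact hy.1 e
        all_goals
          have := hE _ e
          exact i3 _ e ⟨by first | exact hx.2.resolve_left (by omega) | exact hy.2.resolve_left (by omega),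
            by first | exact hy.2.resolve_left (by omega) | exact hx.2.resolve_left (by omega)⟩
    refine ⟨f, f1, le_trans ?_ f2⟩
    refine le_trans ?_ (card_le_card_of_surjOn (t := insert n I ×ˢ range (n + 3))
      (fun x => (x.val % (n + 1), x.val / (n + 1))) ?_)
    · rw [card_product, card_insert_of_notMem fun k => (i1 _ k).false, card_range]
      exact Nat.mul_le_mul_right _ (by omega)
    · rintro ⟨a, i⟩ hp
      simp only [coe_product, Set.mem_prod, mem_coe, mem_range] at hp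
      have a1 : a < n + 1 := by rcases mem_insert.1 hp.1 with e | e; omega; have := i1 _ e; omega
      have : a + (n + 1) * i < N := by rw [hN]; nlinarith
      have e1 : (a + (n + 1) * i) % (n + 1) = a := by rw [Nat.add_mul_mod_self_left, Nat.mod_eq_of_lt a1]
      refine ⟨⟨a + (n + 1) * i, by omega⟩, ?_, ?_⟩
      · simp only [coe_filter, mem_univ, true_and, Set.mem_setOf_eq, e1, hp.1, and_true, Ne, Fin.ext_iff,
          Fin.val_last]
        omega
      · simp only [e1, Nat.add_mul_div_left _ _ n.succ_pos, Nat.div_eq_of_lt a1, zero_add]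
  · have pv : ∀ v w, v ≠ w → 0 < f v → 0 < f w → ∃ u, G.edist u v ≤ f v ∧ ∀ w, v ≠ w → 0 < f w →
        ¬ G.edist u w ≤ f w := fun v w _ a _ => (f2 v a).imp fun u hu => ⟨hu.1, fun w n b c =>
      hu.2 ⟨w, by rw [Function.update_of_ne n.symm]; exact ⟨b, c⟩⟩⟩
    have K : n + 3 ≤ (k + 1) * (n + 3) := Nat.le_mul_of_pos_left _ (by omega)
    have big : ∀ w, 0 < f w → ¬ ∀ u, G.edist u w ≤ f w := fun w hw a => by
      have : f w ≤ 2 := by exact_mod_cast (f1 w).trans ((G.eccent_le_iff _ _).2 (d2 w))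
      rw [sum_eq_single w (fun v _ e => ?_) (by simp)] at f3
      · omega
      · by_contra p
        obtain ⟨u, _, hu⟩ := pv v w e (by omega) hw
        exact hu w e hw (a u)
    have o1 : ∀ w, f w ≤ 1 := fun w => by
      by_contra p
      exact big w (by omega) fun u => (d2 u w).trans (by exact_mod_cast (by omega : 2 ≤ f w))
    have o2 : f (Fin.last N) = 0 := by
      by_contra p
      exact big _ (by omega) fun u => (d1 u).trans (by exact_mod_cast (by omega : 1 ≤ f _))
    obtain ⟨c, hc⟩ : ∃ c : ℕ → Finset (Fin (N + 1)), ∀ a, c a =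
      (univ.filter fun x => 0 < f x).filter fun x => x.val % (n + 1) = a := ⟨_, fun _ => rfl⟩
    obtain ⟨I, hI⟩ : ∃ I, I = (range (n + 1)).filter fun a => 1 < (c a).card := ⟨_, rfl⟩
    have s1 : ∑ v, f v ≤ I.card * (n + 3) + (n + 1) := by
      have : ∑ v, f v = (univ.filter fun x => 0 < f x).card := by
        rw [card_filter]; exact sum_congr rfl fun v _ => by have := o1 v; split_ifs <;> omega
      rw [this, card_eq_sum_card_fiberwise (t := range (n + 1)) (f := fun x => x.val % (n + 1))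
        fun x _ => by simpa using Nat.mod_lt _ n.succ_pos]
      simp only [← hc]
      rw [← sum_filter_add_sum_filter_not _ fun a => 1 < (c a).card, ← hI]
      refine add_le_add (sum_le_card_nsmul _ _ _ fun a _ => ?_) ((sum_le_card_nsmul _ _ 1 fun a h =>
        not_lt.1 (mem_filter.1 h).2).trans (by simpa using card_filter_le (range (n + 1)) _))
      refine le_trans (card_le_card_of_injOn (t := range (n + 3)) (fun x => x.val / (n + 1))
        (fun x hx => ?_) fun x hx y hy e => ?_) (by simp)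
      · simp only [hc, coe_filter, mem_filter, mem_univ, true_and, Set.mem_setOf_eq] at hx
        have : x ≠ Fin.last N := by rintro rfl; omega
        have := Fin.val_lt_last this
        simpa using Nat.div_lt_of_lt_mul (hN ▸ this)
      · simp only [hc, coe_filter, mem_filter, mem_univ, true_and, Set.mem_setOf_eq] at hx hy e
        exact Fin.ext (by rw [← Nat.div_add_mod x (n + 1), ← Nat.div_add_mod y (n + 1), e, hx.2, hy.2])
    have s2 : k + 1 ≤ I.card := by
      by_contra p
      have := Nat.mul_le_mul_right (n + 3) (show I.card ≤ k by omega)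
      rw [add_mul] at f3; omega
    refine ⟨I.erase n, fun v hv => ?_, by have := pred_card_le_card_erase (s := I) (a := n); omega,
      fun e he ⟨a, b⟩ => ?_⟩
    · simp only [hI, mem_erase, mem_filter, mem_range] at hv; omega
    · have lt := hE _ he
      simp only [hI, mem_erase, mem_filter] at a b
      obtain ⟨x, hx, x', hx', ne⟩ := one_lt_card.1 a.2.2
      obtain ⟨y, hy⟩ := card_pos.1 (show 0 < (c e.2).card by omega)
      simp only [hc, mem_filter, mem_univ, true_and] at hx hx' hy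
      have xy : x ≠ y := by rintro rfl; omega
      obtain ⟨u, u1, u2⟩ := pv x y xy hx.1 hy.1
      have g : ∀ w, x ≠ w → 0 < f w → ¬ (G.Adj u w ∨ u = w) := fun w a b c => u2 w a b
        ((SimpleGraph.edist_le_one_iff_adj_or_eq.2 c).trans (by exact_mod_cast b))
      rcases SimpleGraph.edist_le_one_iff_adj_or_eq.1 (u1.trans (by exact_mod_cast o1 x)) with a | rfl
      · refine g x' ne hx'.1 (or_iff_not_imp_right.2 fun k => (ad _ _).2 ⟨k, ?_⟩)
        have := ((ad _ _).1 a).2
        have : x ≠ Fin.last N := by rintro rfl; omega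
        rw [hx'.2, ← hx.2]; tauto
      · exact g y xy hy.1 (Or.inl ((ad _ _).2 ⟨xy, by rw [hx.2, hy.2]; tauto⟩))

theorem result : ∀ L : List Bool → Prop, InNP L → ∃ f : List Bool → Inst, PolyTime id bits f ∧
    ∀ x, Valid (f x) ∧ (L x ↔ UpperDom (f x)) ∧ (L x ↔ UpperIrr (f x)) := fun L hL => by
  obtain ⟨f, hf, e⟩ := (hard_IS.red (Val' := fun y => Valid y ∧ (UpperDom y ↔ UpperIrr y)) red
    (by unfold red; fun_prop) fun y h => by
      obtain ⟨a, b, c⟩ := correct y h
      have d : UpperDom (red y) → UpperIrr (red y) := fun ⟨f, p, q⟩ => ⟨f, p.irred, q⟩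
      exact ⟨⟨a, d, fun k => b (c k)⟩, b, fun k => c (d k)⟩).unfold L hL
  exact ⟨f, hf, fun x => ⟨(e x).1.1, (e x).2, (e x).2.trans (e x).1.2⟩⟩

end Pool.Agent.Results.MP_7a9dcc_lc.NPHard
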